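import Mathlib
import Pool.Agent.MP_20d318_ag.PR.Main

/-!
The nef cone conjecture for pairs `(X', Δ)`. Here `X` is a smooth projective variety with function
field generated by those of `a` complex rational surfaces and at most one line and by `w` with
`w ^ d = ψ`, for `d = 1` or `d = 2`; `X'` is any projective variety birational to `X`, smooth or
normal with a Cartier divisor supported on each prime divisor; `Δ` is half the sum of the prime
divisors along which `ψ` has odd order, and a multiple of `-(K + Δ)` is effective.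
-/

set_option autoImplicit false

open AlgebraicGeometry CategoryTheory

namespace Pool.Agent.Results.MP_20d318_ag.AllBirationalPairs

open Pool.Agent.MP_fd6584_ag Pool.Agent.MP_fd6584_ag.Pj Pool.Agent.MP_20d318_ag.RS
  Pool.Agent.MP_20d318_ag.AM Pool.Agent.MP_20d318_ag.PR

theorem result :
    (∃ (M : Type) (_ : Field M) (_ : Algebra ℂ M) (T : Set (Subalgebra ℂ M))
      (D₁ D₂ : Derivation ℂ M M) (φ : M), Tower T ∧ BiAnti T D₁ D₂ φ ∧
        SmoothZero T D₁ D₂ φ ∧ TwoComp T D₁ D₂ φ) ∧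
    ∀ (d : ℕ) (M : Type) [Field M] [Algebra ℂ M] (a m : ℕ) (T : Fin a → Set (Subalgebra ℂ M))
      (D₁ D₂ : Fin a → Derivation ℂ M M) (φ : Fin a → M) (l : Fin m → ℂ), d = 1 ∨ d = 2 →
      (∀ i, Tower (T i)) → (∀ i, BiAnti (T i) (D₁ i) (D₂ i) (φ i)) →
      (∀ i, SmoothZero (T i) (D₁ i) (D₂ i) (φ i)) →
      (∀ i : Fin a, i.1 + 1 < a + m → TwoComp (T i) (D₁ i) (D₂ i) (φ i)) →
      m ≤ 1 → 2 ≤ a + m → (∀ r, l r ≠ 0 ∧ l r ≠ 1) →
        ∃ (X : Scheme.{0}) (_ : IsIntegral X) (s : X ⟶ Spec (CommRingCat.of ℂ))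
          (ψ : X.functionField), IsProjective s ∧ Smooth s ∧ LogCY s ψ ∧ Cover s d T φ l ψ ∧
            ∀ (X' : Scheme.{0}) [IsIntegral X'] (s' : X' ⟶ Spec (CommRingCat.of ℂ)),
              IsProjective s' → Smooth s' ∨ Normal X' ∧ QFact X' →
                ∀ σ : X.functionField ≃+* X'.functionField, (∀ c, σ (const s c) = const s' c) →
                  AntiPair s' (σ ψ) → NefPair s' (σ ψ) :=
  ⟨Pool.Agent.MP_20d318_ag.AC.exa ℂ, fun _ _ _ _ _ _ _ _ _ _ _ h0 h1 h2 h3 h4 h5 h6 h7 =>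
    pm.all (pm.fin h1 h2 h3 h4 h5 h6 h7 h0)⟩

end Pool.Agent.Results.MP_20d318_ag.AllBirationalPairs
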