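import Mathlib
import Pool.Agent.MP_20d318_ag.AG.Ht
import Pool.Agent.MP_20d318_ag.AG.StepN
import Pool.Agent.MP_20d318_ag.AG.Cls
import Pool.Agent.MP_20d318_ag.AG.Final
import Pool.Agent.MP_20d318_ag.AG.Test
import Pool.Agent.MP_20d318_ag.AG.See
import Pool.Agent.MP_20d318_ag.h50.Star

/-!
The nef cone conjecture for the crepant resolution of `E³ / μ₃`, where `E` is the elliptic curve
with an automorphism of order three.
-/

set_option autoImplicit false

open AlgebraicGeometry CategoryTheory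

namespace Pool.Agent.Results.MP_20d318_ag.Beauville

open Pool.Agent.MP_20d318_ag Pool.Agent.MP_20d318_ag.AG Pool.Agent.MP_20d318_ag.Sch
  Pool.Agent.MP_20d318_ag.H50

theorem result : ∃ (X : Scheme.{0}) (_ : IsIntegral X) (s : X ⟶ Spec (CommRingCat.of ℂ)),
    Pool.Agent.MP_a703b5_ag.IsProjective s ∧ Smooth s ∧ TrivialCanonical s ∧
      ResolvesQuotient s ∧ Module.finrank ℝ (Pool.Agent.MP_20d318_ag.N1 s) = 36 ∧ ConeConj s :=
  have hY := y_stmt frac_stmt
  have hE := exc_stmt bhom hY frac_stmt nrm_stmt noeth_stmt nrmLoc_stmt dvr_stmt krull_stmt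
  have hD := deg_stmt ht_stmt
  have h := geo_of hY (cur_stmt hD ht_stmt reg_stmt hY hE)
    (cls_stmt (see_stmt hor_stmt uniq_stmt restr_stmt frac_stmt pole_stmt red_stmt)
      (mw3_stmt (mw1_stmt homN fieldHom ht_stmt ff_stmt) frac1_stmt indep_stmt) hD
      ht_stmt reg_stmt hY hE pole_stmt) (testE_stmt bhom ht_stmt reg_stmt hY hE)
    (testL_stmt homN ff_stmt ht_stmt hD reg_stmt hY hE)
    (testG_stmt homN ff_stmt ht_stmt reg_stmt hY hE) (gl_stmt fieldHom trd reg_stmt hY hE)
    (lift_stmt tr_stmt hY) (eff_stmt hD hY)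
  final_of charts_stmt pts_stmt smooth_stmt canon_stmt res_stmt bridge
    (fun k K _ _ _ _ _ w x y σ hS => (h k K w x y σ hS).elim fun _ hΦ =>
      coneStatement_of hΦ starH9 starH12 starH4)
    fun K _ _ w x y σ hS => (h ℂ K w x y σ hS).elim fun _ hΦ => hΦ.finrank

end Pool.Agent.Results.MP_20d318_ag.Beauville
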