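import Mathlib
import Pool.Agent.MP_20d318_ag.KK.MainE

/-!
The nef cone conjecture for a smooth projective model with trivial canonical class of the double
cover of the product of `a` complex rational surfaces and `m` lines, branched along a smooth curve
in the square of the anticanonical system of each surface and four points on each line.
-/

set_option autoImplicit false

open AlgebraicGeometry CategoryTheory

namespace Pool.Agent.Results.MP_20d318_ag.CynkHulekAll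

open Pool.Agent.MP_fd6584_ag Pool.Agent.MP_20d318_ag.RS

theorem result :
    (∃ (M : Type) (_ : Field M) (_ : Algebra ℂ M) (T : Set (Subalgebra ℂ M))
      (D₁ D₂ : Derivation ℂ M M) (φ : M), Tower T ∧ BiAnti T D₁ D₂ φ ∧ SmoothZero T D₁ D₂ φ) ∧
    ∀ (M : Type) [Field M] [Algebra ℂ M] (a m : ℕ) (T : Fin a → Set (Subalgebra ℂ M))
      (D₁ D₂ : Fin a → Derivation ℂ M M) (φ : Fin a → M) (l : Fin m → ℂ), (∀ i, Tower (T i)) →
      (∀ i, BiAnti (T i) (D₁ i) (D₂ i) (φ i)) → (∀ i, SmoothZero (T i) (D₁ i) (D₂ i) (φ i)) →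
      0 < a → 2 ≤ a + m → (∀ r, l r ≠ 0 ∧ l r ≠ 1) →
        ∃ (X : Scheme.{0}) (_ : IsIntegral X) (s : X ⟶ Spec (CommRingCat.of ℂ)),
          Pool.Agent.MP_fd6584_ag.Pj.IsProjective s ∧ Smooth s ∧ TrivialCanonical s ∧
            Pool.Agent.MP_20d318_ag.KK.ProdCover s T φ l ∧
              Pool.Agent.MP_20d318_ag.CC.NefConj s := by
  refine ⟨?_, fun _ _ _ _ _ _ _ _ _ _ h1 h2 h3 h4 h5 h6 => ?_⟩
  · obtain ⟨M, _, _, T, D₁, D₂, φ, -, h1, h2, h3, -⟩ := Pool.Agent.MP_20d318_ag.CB.P.example_of ℂ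
    exact ⟨M, _, _, T, D₁, D₂, φ, h1, h2, h3⟩
  · obtain ⟨X, _, s, a, b, c, d, -, e⟩ := (Pool.Agent.MP_20d318_ag.KK.top
      Pool.Agent.MP_20d318_ag.KK.mods Pool.Agent.MP_20d318_ag.KK.bmods
      Pool.Agent.MP_20d318_ag.KK.emods h1 h2 h3 h4 h5 h6).scheme Pool.Agent.MP_20d318_ag.KK.mods
    exact ⟨X, _, s, a, b, c, d, e⟩

end Pool.Agent.Results.MP_20d318_ag.CynkHulekAll
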